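import Pool.Agent.helper94.PL.Spec
import Pool.Agent.helper98.ILF.Lift

set_option autoImplicit false

open Complex Metric Set Filter Topology MeasureTheory MPS
open Pool.Agent.helper16.Multibrot

noncomputable section

namespace PLY

theorem BEX_one (n : ℕ) (hn : n ≠ 0) (r : ℝ) (hr : 0 < r) (h : ℂ → ℂ)
    (hd : DifferentiableOn ℂ h (ball 0 r)) (h1 : h 0 = 1)
    (hp : ∀ v ∈ ball (0 : ℂ) r, h v ^ n = 1) : ∀ v ∈ ball (0 : ℂ) r, h v = 1 := by
  have hF : ∀ z ∈ ball (0 : ℂ) r, HasDerivAt h 0 z := by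
    intro z hz
    have h2 : HasDerivAt h (deriv h z) z :=
      (hd.differentiableAt (isOpen_ball.mem_nhds hz)).hasDerivAt
    have h3 := h2.pow n
    have h4 : HasDerivAt (h ^ n) 0 z := by
      have h5 : (h ^ n) =ᶠ[𝓝 z] fun _ => (1 : ℂ) := by
        filter_upwards [isOpen_ball.mem_nhds hz] with y hy
        simpa using hp y hy
      exact (hasDerivAt_const z (1 : ℂ)).congr_of_eventuallyEq h5
    have h6 := h3.unique h4
    have h7 : h z ≠ 0 := by
      intro h0
      have := hp z hz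
      rw [h0, zero_pow hn] at this
      exact zero_ne_one this
    have h8 : (n : ℂ) ≠ 0 := by exact_mod_cast hn
    have h9 : deriv h z = 0 := by
      rcases mul_eq_zero.1 h6 with h | h
      · exact absurd h (mul_ne_zero h8 (pow_ne_zero _ h7))
      · exact h
    rw [h9] at h2
    exact h2
  intro v hv
  have := (convex_ball (0 : ℂ) r).norm_image_sub_le_of_norm_hasDerivWithin_le (f := h)
    (f' := fun _ => 0) (C := 0) (fun z hz => (hF z hz).hasDerivWithinAt)
    (fun z _ => by simp) (mem_ball_self hr) hv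
  simp only [zero_mul] at this
  have h5 := norm_le_zero_iff.1 this
  rw [h1] at h5
  exact sub_eq_zero.1 h5

theorem BEX_iter (n : ℕ) (c : ℂ) (r : ℝ) (E : ℂ → ℂ) (hn : 2 ≤ n) (hr1 : r < 1)
    (hE : BE n c r E) (p : ℂ) (hp : ‖p‖ < r) (hp0 : p ≠ 0) (hc : p⁻¹ * E p = c) (j : ℕ) :
    (fc n c)^[j + 1] 0 = (p ^ (n ^ j))⁻¹ * E (p ^ (n ^ j)) := by
  induction j with
  | zero =>
    have h0 : fc n c 0 = c := by
      unfold fc
      rw [zero_pow (by omega)]
      ring
    simpa [h0] using hc.symm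
  | succ j ih =>
    rw [Function.iterate_succ_apply', ih]
    set x : ℂ := p ^ (n ^ j) with hx
    have hx0 : x ≠ 0 := pow_ne_zero _ hp0
    have hxr : x ∈ ball (0 : ℂ) r := by
      rw [mem_ball_zero_iff, hx, norm_pow]
      have h1 : ‖p‖ ≤ 1 := (hp.trans hr1).le
      have h2 : ‖p‖ ^ (n ^ j) ≤ ‖p‖ ^ 1 :=
        pow_le_pow_of_le_one (norm_nonneg _) h1 (Nat.one_le_pow _ _ (by omega))
      rw [pow_one] at h2
      exact lt_of_le_of_lt h2 hp
    have hfe := hE.fe x hxr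
    have hxx : p ^ (n ^ (j + 1)) = x ^ n := by
      rw [hx, ← pow_mul, pow_succ]
    rw [hxx]
    unfold fc
    rw [mul_pow, hfe, inv_pow]
    have : x ^ n ≠ 0 := pow_ne_zero _ hx0
    field_simp
    ring

theorem BEX_nz (hMBD : MBD_stmt) (n : ℕ) (c : ℂ) (r : ℝ) (E : ℂ → ℂ) (hn : 2 ≤ n)
    (hc : c ∈ multibrot n) (hr : 0 < r) (hr1 : r < 1) (hE : BE n c r E) (p : ℂ)
    (hp : ‖p‖ < r) (h0 : E p - c * p = 0) : False := by
  by_cases hp0 : p = 0
  · rw [hp0, hE.one] at h0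
    simp at h0
  have hcc : p⁻¹ * E p = c := by
    have : E p = c * p := sub_eq_zero.1 h0
    rw [this]
    field_simp
  have hit := BEX_iter n c r E hn hr1 hE p hp hp0 hcc
  obtain ⟨-, hb, -⟩ := hMBD n c hn hc
  have hlim : Tendsto (fun j : ℕ => p ^ (n ^ j)) atTop (𝓝 0) :=
    (tendsto_pow_atTop_nhds_zero_of_norm_lt_one (hp.trans hr1)).comp
      (tendsto_pow_atTop_atTop_of_one_lt (by omega : 1 < n))
  have hcont : ContinuousAt E 0 :=
    (hE.hol.differentiableAt (isOpen_ball.mem_nhds (mem_ball_self hr))).continuousAt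
  have hElim : Tendsto (fun j : ℕ => ‖E (p ^ (n ^ j))‖) atTop (𝓝 1) := by
    have := (hcont.tendsto.comp hlim).norm
    rw [hE.one, norm_one] at this
    exact this
  have h1 : ∀ᶠ j : ℕ in atTop, 1 / 2 < ‖E (p ^ (n ^ j))‖ :=
    hElim.eventually (lt_mem_nhds (by norm_num))
  have h2 : ∀ᶠ j : ℕ in atTop, ‖p ^ (n ^ j)‖ < 1 / 8 := by
    have := hlim.norm
    rw [norm_zero] at this
    exact this.eventually (gt_mem_nhds (by norm_num))
  obtain ⟨j, hj1, hj2⟩ := (h1.and h2).exists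
  have hj3 := hb (j + 1)
  rw [hit j, norm_mul, norm_inv] at hj3
  have hpos : 0 < ‖p ^ (n ^ j)‖ := norm_pos_iff.2 (pow_ne_zero _ hp0)
  rw [inv_mul_lt_iff₀ hpos] at hj3
  linarith

theorem BEX (hMBD : MBD_stmt) : BEX_stmt := by
  intro n c r E hn hc hr hr1 hE
  have hn0 : n ≠ 0 := by omega
  have hnr : (0 : ℝ) < n := by positivity
  set R : ℝ := r ^ (1 / (n : ℝ)) with hR
  have hR0 : 0 < R := Real.rpow_pos_of_pos hr _
  have hRn : R ^ n = r := by
    rw [hR, ← Real.rpow_natCast, ← Real.rpow_mul hr.le, one_div_mul_cancel hnr.ne', Real.rpow_one]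
  have hrR : r ≤ R := by
    have h1 : r ^ (1 : ℝ) ≤ r ^ (1 / (n : ℝ)) := by
      apply Real.rpow_le_rpow_of_exponent_ge hr hr1.le
      rw [div_le_one hnr]
      exact_mod_cast (by omega : 1 ≤ n)
    rwa [Real.rpow_one] at h1
  have hpow : ∀ v : ℂ, ‖v‖ < R → ‖v ^ n‖ < r := by
    intro v hv
    rw [norm_pow, ← hRn]
    exact pow_lt_pow_left₀ hv (norm_nonneg _) hn0
  set F : ℂ → ℂ := fun v => E (v ^ n) - c * v ^ n with hF
  have hFd : DifferentiableOn ℂ F (ball 0 R) := by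
    apply DifferentiableOn.sub
    · apply hE.hol.comp (differentiable_pow n).differentiableOn
      intro v hv
      rw [mem_ball_zero_iff] at hv ⊢
      exact hpow v hv
    · exact ((differentiable_pow n).const_mul c).differentiableOn
  have hF0 : ∀ v ∈ ball (0 : ℂ) R, F v ≠ 0 := by
    intro v hv h0
    rw [mem_ball_zero_iff] at hv
    exact BEX_nz hMBD n c r E hn hc hr hr1 hE (v ^ n) (hpow v hv) h0
  have hF1 : (1 : ℂ) ^ n = F 0 := by
    rw [hF]
    simp only [one_pow, zero_pow hn0, hE.one, mul_zero, sub_zero]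
  obtain ⟨g, hgd, hg0, hgn⟩ :=
    Pool.Agent.helper98.ILF.exists_lift_pow hn0 hR0 hFd hF0 hF1
  have hsub : ball (0 : ℂ) r ⊆ ball (0 : ℂ) R := ball_subset_ball hrR
  have hE0 : ∀ v ∈ ball (0 : ℂ) r, E v ≠ 0 := by
    intro v hv h0
    have h1 := hE.fe v hv
    rw [h0, zero_pow hn0] at h1
    exact hF0 v (hsub hv) h1.symm
  have hgE : ∀ v ∈ ball (0 : ℂ) r, g v = E v := by
    have h1 := BEX_one n hn0 r hr (fun v => g v / E v)
      ((hgd.mono hsub).div hE.hol hE0) (by simp [hg0, hE.one]) (by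
        intro v hv
        simp only [div_pow]
        rw [hgn v (hsub hv), hE.fe v hv]
        exact div_self (hF0 v (hsub hv)))
    intro v hv
    have h2 := h1 v hv
    exact (div_eq_one_iff_eq (hE0 v hv)).1 h2
  refine ⟨g, ⟨hgd, hg0, ?_⟩, hgE⟩
  intro v hv
  have hv' : v ^ n ∈ ball (0 : ℂ) r := by
    rw [mem_ball_zero_iff] at hv ⊢
    exact hpow v hv
  rw [hgn v hv, hgE _ hv']

end PLY
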