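import Pool.Agent.helper94.PL.Spec

set_option autoImplicit false

open Complex Metric Set Filter Topology MeasureTheory MPS
open Pool.Agent.helper16.Multibrot

noncomputable section

namespace PLY

theorem PLY_Fx (n m P : ℕ) (θ : ℝ) (h : Fx n m θ) (hd : m ∣ P) : Fx n P θ := by
  obtain ⟨j, hj⟩ := h
  obtain ⟨q, rfl⟩ := hd
  have h1 : ((n : ℤ) ^ m - 1) ∣ ((n : ℤ) ^ m) ^ q - 1 ^ q := sub_dvd_pow_sub_pow _ _ _
  obtain ⟨s, hs⟩ := h1
  refine ⟨s * j, ?_⟩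
  rw [one_pow] at hs
  have h2 : ((n : ℝ) ^ m) ^ q - 1 = ((n : ℝ) ^ m - 1) * s := by exact_mod_cast hs
  rw [pow_mul, h2]
  push_cast
  rw [← hj]
  ring

theorem PLY_mlt (n k P : ℕ) (c z : ℂ) (hz : (fc n c)^[k] z = z) :
    mlt n (k * P) c z = mlt n k c z ^ P := by
  unfold mlt
  rw [Function.iterate_mul]
  have hd : Differentiable ℂ (fc n c) := by
    unfold fc
    exact (differentiable_pow n).add_const c
  have h1 : HasDerivAt ((fc n c)^[k]) (deriv ((fc n c)^[k]) z) z :=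
    (hd.iterate k z).hasDerivAt
  exact (HasDerivAt.iterate (𝕜 := ℂ) z h1 hz P).deriv

theorem PLY (hPL0 : PL0_stmt) (hRAY : RAY_stmt) (hBGL : BGL_stmt) : PLY_stmt := by
  intro n k c z Θ hn hc hk hz hρ hΘ
  obtain ⟨E, hE⟩ := hBGL n c hn hc
  have hm : ∀ θ ∈ Θ, ∃ m : ℕ, 0 < m ∧ Fx n m θ := by
    intro θ hθ
    obtain ⟨-, -, γ, ⟨-, ⟨m, hm0, hmj, -⟩, -⟩, -⟩ := hΘ θ hθ
    exact ⟨m, hm0, hmj⟩
  choose! m hm0 hmF using hm
  set P : ℕ := ∏ θ ∈ Θ, m θ with hP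
  have hP0 : 0 < P := Finset.prod_pos fun θ hθ => hm0 θ hθ
  have hzP : (fc n c)^[k * P] z = z := by
    rw [Function.iterate_mul]
    exact Function.iterate_fixed hz P
  have hml := PLY_mlt n k P c z hz
  have hρ1 : 1 < ‖mlt n (k * P) c z‖ := by
    rw [hml, norm_pow]
    exact one_lt_pow₀ hρ hP0.ne'
  have h0 := hPL0 n (k * P) c z E Θ hn hc hE (Nat.mul_pos hk hP0) hzP hρ1 (by
    intro θ hθ
    obtain ⟨h1, h2, γ, hγ, hlim⟩ := hΘ θ hθ
    refine ⟨h1, h2, ?_, ?_⟩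
    · exact PLY_Fx n (m θ) (k * P) θ (hmF θ hθ) (Dvd.dvd.mul_left (Finset.dvd_prod_of_mem m hθ) k)
    · have hr := hRAY n c E θ γ hn hc hE hγ
      refine hlim.congr' ?_
      filter_upwards [self_mem_nhdsWithin] with t ht
      exact hr t ht)
  rw [hml, norm_pow, Real.log_pow] at h0
  have hPr : (0 : ℝ) < P := by exact_mod_cast hP0
  push_cast at h0
  have h3 : ((Θ.card : ℝ) * Real.log ‖mlt n k c z‖) * P ≤ (2 * k * Real.log n) * P := by
    calc ((Θ.card : ℝ) * Real.log ‖mlt n k c z‖) * P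
        = (Θ.card : ℝ) * (P * Real.log ‖mlt n k c z‖) := by ring
      _ ≤ 2 * ((k : ℝ) * P) * Real.log n := h0
      _ = (2 * k * Real.log n) * P := by ring
  exact le_of_mul_le_mul_right h3 hPr

end PLY
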